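import Pool.Agent.W111.LAR.Cay2

set_option autoImplicit false

/-!
# Linear arboricity of Cayley graphs whose generators have large order

`H931R3.LA.la G` is the linear arboricity (the same expression as in the frozen statement S07085).
-/

namespace Pool.Agent.Results.MP_0a041d_co.CayleyLargeOrders

open SimpleGraph H931R3.LA Pool.Agent.W111.LAR

/-- The linear arboricity conjecture for Cayley graphs of finite groups whose connection set `S`
is split into pairs `{s, σ s}`, each pair closed under inverses, such that the reciprocals of the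
orders of the subgroups generated by the pairs `{s, σ s}`, over all `s ∈ S`, sum up to at most one.
The second part is the special case without involutions, with the pairs `{s, s⁻¹}`. -/
theorem result :
    (∀ (Γ : Type) [Group Γ] [Finite Γ] (S : Finset Γ) (G : SimpleGraph Γ),
      (∀ g h, G.Adj g h ↔ g⁻¹ * h ∈ S) → S.Nonempty →
      ∀ σ : Γ → Γ, (∀ s ∈ S, σ s ∈ S ∧ σ (σ s) = s ∧ σ s ≠ s ∧
        (σ s = s⁻¹ ∨ (s⁻¹ = s ∧ (σ s)⁻¹ = σ s))) →
      ∑ s ∈ S, (1 : ℝ) / Nat.card (Subgroup.closure {s, σ s} : Subgroup Γ) ≤ 1 →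
      la G = (S.card + 2) / 2) ∧
    (∀ (Γ : Type) [Group Γ] [Finite Γ] (S : Finset Γ) (G : SimpleGraph Γ),
      (∀ g h, G.Adj g h ↔ g⁻¹ * h ∈ S) → S.Nonempty → (∀ s ∈ S, s * s ≠ 1) →
      ∑ s ∈ S, (1 : ℝ) / orderOf s ≤ 1 → la G = (S.card + 2) / 2) := by
  refine ⟨?_, ?_⟩
  · intro Γ _ _ S G hG hne σ hσ hsum
    refine la_eq_of_cov hne.card_pos (cay_deg S G hG) ?_
    have h1 := cay_pair S G hG σ hσ hsum
    have h2 : (S.card + 2) / 2 = S.card / 2 + 1 := by omega
    rwa [h2]
  · intro Γ _ _ S G hG hne hno hsum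
    have hinv : ∀ s ∈ S, s⁻¹ ∈ S := by
      intro s hs
      have h1 : G.Adj 1 s := (hG 1 s).2 (by simpa using hs)
      have h2 := (hG s 1).1 h1.symm
      simpa using h2
    have hone : (1 : Γ) ∉ S := by
      intro h
      exact G.irrefl ((hG 1 1).2 (by simpa using h))
    refine la_eq_of_cov hne.card_pos (cay_deg S G hG) ?_
    have h1 := cay_even S hone hinv hno hsum G hG
    have h2 : (S.card + 2) / 2 = S.card / 2 + 1 := by omega
    rwa [h2]

end Pool.Agent.Results.MP_0a041d_co.CayleyLargeOrders
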