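import Pool.Agent.W111.LAR.OddTop

set_option autoImplicit false

/-!
# Linear arboricity of regular graphs of large girth

`H931R3.LA.la G` is the linear arboricity (the same expression as in the frozen statement S07085).
-/

namespace Pool.Agent.Results.MP_0a041d_co.LargeGirth

open SimpleGraph H931R3.LA Pool.Agent.W111.LAR

/-- **The linear arboricity conjecture for large girth.**  It holds for every `r`-regular graph all
of whose cycles have length at least `r`, if `r` is even, and at least `6 r - 11`, if `r` is odd.
Moreover every graph of maximum degree at most `2 k` all of whose cycles have length at least `2 m`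
has linear arboricity at most `k + ⌈k / m⌉`. -/
theorem result :
    (∀ (V : Type) [Finite V] [Nonempty V] (G : SimpleGraph V) (r : ℕ), 0 < r →
      (∀ v, (G.neighborSet v).ncard = r) →
      (∀ (v : V) (c : G.Walk v v), c.IsCycle →
        (Even r → r ≤ c.length) ∧ (Odd r → 6 * r ≤ c.length + 11)) →
      la G = (r + 2) / 2) ∧
    (∀ (V : Type) [Finite V] (G : SimpleGraph V) (k m : ℕ), 1 ≤ m →
      (∀ v, (G.neighborSet v).ncard ≤ 2 * k) →
      (∀ (v : V) (c : G.Walk v v), c.IsCycle → 2 * m ≤ c.length) →
      la G ≤ k + (k + m - 1) / m) := by
  refine ⟨?_, ?_⟩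
  · intro V _ _ G r hr hreg hcyc
    rcases Nat.even_or_odd r with he | ho
    · exact even_girth G r hr he hreg (fun v c hc => (hcyc v c hc).1 he)
    · exact odd_girth_all G r ho hreg (fun v c hc => (hcyc v c hc).2 ho)
  · intro V _ G k m hm hdeg hcyc
    exact la_le (cov_girth G k m hm hdeg hcyc)

end Pool.Agent.Results.MP_0a041d_co.LargeGirth
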